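import Pool.Agent.Q169.LAD.Ode

set_option autoImplicit false

/-!
# The tangent algebra of the group of local automorphisms is the space of local derivations

Let `(A, μ)` be a finite-dimensional algebra over the real or complex numbers, not assumed
associative. For `X` in `End A`, all operators `exp (t X)`, `t` real, are local automorphisms if and
only if `X` is a local derivation.

Idea. If `X` is a local derivation, then for a point `x` the equation `g' = g D(g)`, `g(0) = 1`, with
`D(g)` a derivation such that `D(g) x = g⁻¹ X (g x)`, is solved near `0` by automorphisms `g(t)` with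
`g(t) x = exp (t X) x`; a connectedness argument finishes. Conversely, by Baire's theorem there are
times `t`, arbitrarily close to `0`, near which `exp (t X) x` moves in a compact piece of the orbit;
there the logarithm of an automorphism close to the identity is a derivation, so `X y = D y` for
`y = exp (t X) x`; let `t` tend to `0` and use that the space of the values `D y` has the same
dimension for all these `y` and for `x`.
-/

namespace Pool.Agent.Results.MP_9b03f8_al.TangentAlgebra

open Pool.Agent.Q169.LAD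

/-- `φ` is a local automorphism of the algebra `(A, μ)`: at every point it agrees with some linear,
bijective and multiplicative map `ψ`, depending on the point. -/
def IsLocalAut {𝕜 A : Type*} [RCLike 𝕜] [NormedAddCommGroup A] [NormedSpace 𝕜 A]
    (μ : A →ₗ[𝕜] A →ₗ[𝕜] A) (φ : A →L[𝕜] A) : Prop :=
  ∀ x : A, ∃ ψ : A ≃ₗ[𝕜] A, (∀ a b : A, ψ (μ a b) = μ (ψ a) (ψ b)) ∧ φ x = ψ x

/-- `X` is a local derivation of the algebra `(A, μ)`: at every point it agrees with some derivation
`D`, depending on the point. -/
def IsLocalDer {𝕜 A : Type*} [RCLike 𝕜] [NormedAddCommGroup A] [NormedSpace 𝕜 A]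
    (μ : A →ₗ[𝕜] A →ₗ[𝕜] A) (X : A →L[𝕜] A) : Prop :=
  ∀ x : A, ∃ D : A →ₗ[𝕜] A, (∀ a b : A, D (μ a b) = μ (D a) b + μ a (D b)) ∧ X x = D x

/-- Let `𝕜` be the real or complex field and `(A, μ)` a finite-dimensional algebra over it with an
arbitrary bilinear product. For `X : A → A` linear, `exp (t X)` is a local automorphism for every
real `t` if and only if `X` is a local derivation. -/
theorem result (𝕜 : Type*) [RCLike 𝕜] (A : Type*) [NormedAddCommGroup A] [NormedSpace 𝕜 A]
    [FiniteDimensional 𝕜 A] (μ : A →ₗ[𝕜] A →ₗ[𝕜] A) (X : A →L[𝕜] A) :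
    (∀ t : ℝ, IsLocalAut μ (NormedSpace.exp ((t : 𝕜) • X))) ↔ IsLocalDer μ X := by
  let _ : NormedSpace ℝ A := NormedSpace.restrictScalars ℝ 𝕜 A
  have : IsScalarTower ℝ 𝕜 A := RestrictScalars.isScalarTower ℝ 𝕜 A
  let M : A →L[𝕜] A →L[𝕜] A := LinearMap.toContinuousLinearMap
    ((LinearMap.toContinuousLinearMap : (A →ₗ[𝕜] A) ≃ₗ[𝕜] (A →L[𝕜] A)).toLinearMap.comp μ)
  have hM : ∀ a b, M a b = μ a b := fun _ _ => rfl
  have hder : IsLocalDer μ X ↔ ∀ y, X y ∈ W M y := by
    constructor
    · intro h y
      obtain ⟨D, hD, hy⟩ := h y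
      exact ⟨LinearMap.toContinuousLinearMap D, fun a b => hD a b, hy.symm⟩
    · intro h y
      obtain ⟨D, hD, hy⟩ := mem_W.1 (h y)
      exact ⟨D, fun a b => hD a b, hy.symm⟩
  have haut : (∀ t : ℝ, IsLocalAut μ (NormedSpace.exp ((t : 𝕜) • X))) ↔
      ∀ (t : ℝ) (x : A), ∃ g, IsA M g ∧ NormedSpace.exp ((t : 𝕜) • X) x = g x := by
    constructor
    · intro h t x
      obtain ⟨ψ, hψ, hx⟩ := h t x
      let e : A ≃L[𝕜] A := ψ.toContinuousLinearEquiv
      exact ⟨(ContinuousLinearEquiv.toUnit e : (A →L[𝕜] A)ˣ),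
        ⟨Units.isUnit _, fun a b => hψ a b⟩, hx⟩
    · intro h t x
      obtain ⟨g, ⟨⟨u, hu⟩, hg⟩, hx⟩ := h t x
      refine ⟨(ContinuousLinearEquiv.ofUnit u).toLinearEquiv, fun a b => ?_, ?_⟩
      · subst hu
        exact hg a b
      · subst hu
        exact hx
  rw [haut, hder]
  exact ⟨fun h y => converse M X h y, fun h t x => forward M X h t x⟩

end Pool.Agent.Results.MP_9b03f8_al.TangentAlgebra
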